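import Mathlib

/-!
# Signed `B_h` sets of size three in cyclic groups: Day's conjecture

Day's set `{a_1, h, a_3}`, with `a_1 = 1`, `a_3 = h² + h + 1` for even `h` and `a_1 = 2`,
`a_3 = h² + h + 4` for odd `h`, is a `B_h` set over `ℤ` in `Z_n` for all `n > 2 h a_3`.
Consequently `g_±(3,h) ≤ 2h³ + 2h² + 8h + 1`.
-/

set_option autoImplicit false

namespace Pool.Agent.Results.MP_66a881_co.DayBound

/-- `A` is a `B_h` set over `ℤ` in `Z_n`: the map `λ ↦ ∑_{a ∈ A} λ_a a` is injective on the set of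
the integer vectors `(λ_a)_{a ∈ A}` with `∑ |λ_a| = h`. -/
def IsBh {n : ℕ} (h : ℕ) (A : Finset (ZMod n)) : Prop :=
  ∀ c d : ZMod n → ℤ, ∑ a ∈ A, |c a| = h → ∑ a ∈ A, |d a| = h →
    ∑ a ∈ A, c a • a = ∑ a ∈ A, d a • a → ∀ a ∈ A, c a = d a

/-- `σ_±(Z_n,h)`: the largest size of a `B_h` set over `ℤ` in `Z_n` (`0` if there is no nonempty
one). -/
noncomputable def sigma (n h : ℕ) : ℕ :=
  sSup {k | ∃ A : Finset (ZMod n), A.Nonempty ∧ IsBh h A ∧ A.card = k}

/-- The positive integers `g` such that `σ_±(Z_n,h) ≥ m` for every `n ≥ g`. -/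
def thresholds (m h : ℕ) : Set ℕ := {g | 0 < g ∧ ∀ n : ℕ, g ≤ n → m ≤ sigma n h}

/-- `g_±(m,h)`: the least positive integer `g` such that `σ_±(Z_n,h) ≥ m` for every `n ≥ g`. -/
noncomputable def gpm (m h : ℕ) : ℕ := sInf (thresholds m h)

/-- Day's first element. -/
def a₁ (h : ℕ) : ℕ := if h % 2 = 0 then 1 else 2

/-- Day's third element. -/
def a₃ (h : ℕ) : ℕ := if h % 2 = 0 then h ^ 2 + h + 1 else h ^ 2 + h + 4

lemma even_aux {h x y z : ℤ} (hh : 2 ≤ h) (he : h % 2 = 0) (hz : 0 ≤ z)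
    (hs : |x| + |y| + |z| ≤ 2 * h) (hp : (x + y + z) % 2 = 0)
    (heq : x + h * y + (h ^ 2 + h + 1) * z = 0) : x = 0 ∧ y = 0 ∧ z = 0 := by
  obtain ⟨c, hc⟩ : ∃ c : ℤ, c = -(y + (h + 1) * z) := ⟨_, rfl⟩
  have hx : x = h * c - z := by rw [hc]; linear_combination heq
  have hy : y = -c - (h + 1) * z := by rw [hc]; ring
  rw [abs_of_nonneg hz] at hs
  have h1 : h * |c| - z ≤ |x| := by
    have := abs_sub_abs_le_abs_sub (h * c) z
    rwa [abs_mul, abs_of_nonneg (by omega : 0 ≤ h), abs_of_nonneg hz, ← hx] at this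
  have h2 : (h + 1) * z - |c| ≤ |y| := by
    have := abs_sub_abs_le_abs_sub (-((h + 1) * z)) c
    rw [abs_neg, abs_mul, abs_of_nonneg (by omega : 0 ≤ h + 1), abs_of_nonneg hz] at this
    rwa [hy, show -c - (h + 1) * z = -((h + 1) * z) - c by ring]
  have hc0 := abs_nonneg c
  have h3 : (h - 1) * |c| + (h + 1) * z ≤ 2 * h := by linarith
  have hz1 : z ≤ 1 := by
    by_contra hz2
    push Not at hz2
    nlinarith
  have hz01 : z = 0 ∨ z = 1 := by omega
  rcases hz01 with rfl | rfl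
  · have e1 : |x| = h * |c| := by
      rw [hx, sub_zero, abs_mul, abs_of_nonneg (by omega : 0 ≤ h)]
    have e2 : |y| = |c| := by
      rw [hy, mul_zero, sub_zero, abs_neg]
    have hc1 : |c| ≤ 1 := by
      by_contra h4
      push Not at h4
      nlinarith
    have hc' : c = 0 ∨ c = 1 ∨ c = -1 := by rw [abs_le] at hc1; omega
    rcases hc' with rfl | rfl | rfl
    · refine ⟨by rw [hx]; ring, by rw [hy]; ring, rfl⟩
    · exfalso; omega
    · exfalso; omega
  · exfalso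
    have hc1 : |c| ≤ 1 := by
      by_contra h4
      push Not at h4
      nlinarith
    have hc' : c = 0 ∨ c = 1 ∨ c = -1 := by rw [abs_le] at hc1; omega
    rcases hc' with rfl | rfl | rfl
    · omega
    · have e1 : |x| = h - 1 := by rw [hx, abs_of_nonneg (by omega)]; ring
      have e2 : |y| = h + 2 := by rw [hy, abs_of_nonpos (by omega)]; ring
      omega
    · have e1 : |x| = h + 1 := by rw [hx, abs_of_nonpos (by omega)]; ring
      have e2 : |y| = h := by rw [hy, abs_of_nonpos (by omega)]; ring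
      omega

lemma even_case {h x y z : ℤ} (hh : 2 ≤ h) (he : h % 2 = 0)
    (hs : |x| + |y| + |z| ≤ 2 * h) (hp : (x + y + z) % 2 = 0)
    (heq : x + h * y + (h ^ 2 + h + 1) * z = 0) : x = 0 ∧ y = 0 ∧ z = 0 := by
  rcases le_total 0 z with hz | hz
  · exact even_aux hh he hz hs hp heq
  · have := even_aux (x := -x) (y := -y) (z := -z) hh he (by omega)
      (by rwa [abs_neg, abs_neg, abs_neg]) (by omega) (by linear_combination -heq)
    omega

lemma odd_aux {h x y z : ℤ} (hh : 1 ≤ h) (he : h % 2 = 1) (hz : 0 ≤ z)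
    (hs : |x| + |y| + |z| ≤ 2 * h) (hp : (x + y + z) % 2 = 0)
    (heq : 2 * x + h * y + (h ^ 2 + h + 4) * z = 0) : x = 0 ∧ y = 0 ∧ z = 0 := by
  obtain ⟨k, hk⟩ : ∃ k : ℤ, h = 2 * k + 1 := ⟨h / 2, by omega⟩
  have hpar : (y + (h + 1) * z) % 2 = 0 := by
    have : y + (h + 1) * z = 2 * (-(x + 2 * z) - k * (y + (h + 1) * z)) := by
      rw [hk] at heq ⊢
      linear_combination heq
    omega
  obtain ⟨c, hc⟩ : ∃ c : ℤ, y + (h + 1) * z = 2 * c := ⟨(y + (h + 1) * z) / 2, by omega⟩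
  have hx : x = -(h * c) - 2 * z := by
    have : 2 * x = 2 * (-(h * c) - 2 * z) := by linear_combination heq - h * hc
    omega
  have hy : y = 2 * c - (h + 1) * z := by linarith
  rw [abs_of_nonneg hz] at hs
  have h1 : h * |c| - 2 * z ≤ |x| := by
    have := abs_sub_abs_le_abs_sub (-(h * c)) (2 * z)
    rwa [abs_neg, abs_mul, abs_of_nonneg (by omega : 0 ≤ h),
      abs_of_nonneg (by omega : 0 ≤ 2 * z), ← hx] at this
  have h2 : (h + 1) * z - 2 * |c| ≤ |y| := by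
    have := abs_sub_abs_le_abs_sub (-((h + 1) * z)) (-(2 * c))
    rw [abs_neg, abs_neg, abs_mul, abs_mul, abs_of_nonneg (by omega : 0 ≤ h + 1),
      abs_of_nonneg hz, abs_two] at this
    rwa [hy, show 2 * c - (h + 1) * z = -((h + 1) * z) - -(2 * c) by ring]
  have hc0 := abs_nonneg c
  -- the case `h = 1`
  rcases eq_or_lt_of_le hh with h0 | h0
  · subst h0
    have hz2 : z ≤ 2 := by have := abs_nonneg x; have := abs_nonneg y; omega
    rcases abs_cases x with ⟨h3, h4⟩ | ⟨h3, h4⟩ <;>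
      rcases abs_cases y with ⟨h5, h6⟩ | ⟨h5, h6⟩ <;> omega
  have hh3 : 3 ≤ h := by omega
  have h3 : (h - 2) * |c| + h * z ≤ 2 * h := by linarith
  have hz1 : z ≤ 2 := by
    by_contra hz2
    push Not at hz2
    nlinarith
  have hz012 : z = 0 ∨ z = 1 ∨ z = 2 := by omega
  rcases hz012 with rfl | rfl | rfl
  · have e1 : |x| = h * |c| := by
      rw [hx, mul_zero, sub_zero, abs_neg, abs_mul, abs_of_nonneg (by omega : 0 ≤ h)]
    have e2 : |y| = 2 * |c| := by
      rw [hy, mul_zero, sub_zero, abs_mul, abs_two]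
    have hc1 : |c| ≤ 1 := by
      by_contra h4
      push Not at h4
      nlinarith
    have hc' : c = 0 ∨ c = 1 ∨ c = -1 := by rw [abs_le] at hc1; omega
    rcases hc' with rfl | rfl | rfl
    · refine ⟨by rw [hx]; ring, by rw [hy]; ring, rfl⟩
    · exfalso; omega
    · exfalso; omega
  · exfalso
    have hc1 : |c| ≤ 1 ∨ (|c| ≤ 3 ∧ h = 3) := by
      by_contra hcon
      rw [not_or, not_and_or] at hcon
      obtain ⟨h4, h5⟩ := hcon
      push Not at h4
      rcases h5 with h5 | h5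
      · push Not at h5
        nlinarith
      · have h6 : 5 ≤ h := by omega
        nlinarith
    have hc' : c = 0 ∨ c = 1 ∨ c = -1 ∨ (c = 2 ∨ c = -2 ∨ c = 3 ∨ c = -3) ∧ h = 3 := by
      rcases hc1 with h4 | ⟨h4, h5⟩
      · rw [abs_le] at h4; omega
      · rw [abs_le] at h4; omega
    rcases hc' with rfl | rfl | rfl | ⟨h4, rfl⟩
    · omega
    · have e1 : |x| = h + 2 := by rw [hx, abs_of_nonpos (by omega)]; ring
      have e2 : |y| = h - 1 := by rw [hy, abs_of_nonpos (by omega)]; ring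
      omega
    · have e1 : |x| = h - 2 := by rw [hx, abs_of_nonneg (by omega)]; ring
      have e2 : |y| = h + 3 := by rw [hy, abs_of_nonpos (by omega)]; ring
      omega
    · rcases abs_cases x with ⟨h5, h6⟩ | ⟨h5, h6⟩ <;>
        rcases abs_cases y with ⟨h7, h8⟩ | ⟨h7, h8⟩ <;> omega
  · exfalso
    have hc1 : c = 0 := by
      by_contra h4
      have := Int.one_le_abs h4
      nlinarith
    subst hc1
    have e2 : |y| = 2 * h + 2 := by rw [hy, abs_of_nonpos (by omega)]; ring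
    have := abs_nonneg x
    omega

lemma odd_case {h x y z : ℤ} (hh : 1 ≤ h) (he : h % 2 = 1)
    (hs : |x| + |y| + |z| ≤ 2 * h) (hp : (x + y + z) % 2 = 0)
    (heq : 2 * x + h * y + (h ^ 2 + h + 4) * z = 0) : x = 0 ∧ y = 0 ∧ z = 0 := by
  rcases le_total 0 z with hz | hz
  · exact odd_aux hh he hz hs hp heq
  · have := odd_aux (x := -x) (y := -y) (z := -z) hh he (by omega)
      (by rwa [abs_neg, abs_neg, abs_neg]) (by omega) (by linear_combination -heq)
    omega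

lemma both {h : ℕ} {x y z : ℤ} (hh : 1 ≤ h) (hs : |x| + |y| + |z| ≤ 2 * h)
    (hp : (x + y + z) % 2 = 0) (heq : a₁ h * x + h * y + a₃ h * z = 0) :
    x = 0 ∧ y = 0 ∧ z = 0 := by
  unfold a₁ a₃ at heq
  rcases Nat.mod_two_eq_zero_or_one h with h1 | h1
  · rw [if_pos h1, if_pos h1] at heq
    push_cast at heq
    exact even_case (h := (h : ℤ)) (by omega) (by omega) hs hp (by linarith)
  · rw [if_neg (by omega), if_neg (by omega)] at heq
    push_cast at heq
    exact odd_case (h := (h : ℤ)) (by omega) (by omega) hs hp (by linarith)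

lemma sizes {h : ℕ} (hh : 1 ≤ h) : a₁ h ≤ a₃ h ∧ h < a₃ h ∧ a₁ h ≠ h ∧ 1 ≤ a₁ h ∧
    a₁ h < a₃ h ∧ 2 * h * a₃ h ≤ 2 * h ^ 3 + 2 * h ^ 2 + 8 * h := by
  unfold a₁ a₃
  rcases Nat.mod_two_eq_zero_or_one h with h1 | h1
  · rw [if_pos h1, if_pos h1]
    refine ⟨by omega, by nlinarith, by omega, by omega, by nlinarith, by nlinarith⟩
  · rw [if_neg (by omega), if_neg (by omega)]
    refine ⟨by omega, by nlinarith, by omega, by omega, by nlinarith, by nlinarith⟩

/-- vanishing of small combinations modulo `n` -/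
lemma key {n h : ℕ} (hh : 1 ≤ h) (hn : 2 * h * a₃ h < n) {x y z : ℤ}
    (hs : |x| + |y| + |z| ≤ 2 * h) (hp : (x + y + z) % 2 = 0)
    (heq : x • ((a₁ h : ℕ) : ZMod n) + y • ((h : ℕ) : ZMod n) + z • ((a₃ h : ℕ) : ZMod n) = 0) :
    x = 0 ∧ y = 0 ∧ z = 0 := by
  obtain ⟨s1, s2, s3, s4, s5, s6⟩ := sizes hh
  refine both hh hs hp ?_
  have hd : (n : ℤ) ∣ a₁ h * x + h * y + a₃ h * z := by
    rw [← ZMod.intCast_zmod_eq_zero_iff_dvd]
    push_cast
    rw [← heq]
    simp only [zsmul_eq_mul]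
    ring
  refine Int.eq_zero_of_abs_lt_dvd hd ?_
  have s1' : ((a₁ h : ℕ) : ℤ) ≤ a₃ h := by exact_mod_cast s1
  have s2' : (h : ℤ) ≤ a₃ h := by exact_mod_cast s2.le
  calc |(a₁ h : ℤ) * x + h * y + a₃ h * z| ≤ |(a₁ h : ℤ) * x| + |h * y| + |a₃ h * z| :=
        abs_add_three _ _ _
    _ = a₁ h * |x| + h * |y| + a₃ h * |z| := by simp [abs_mul]
    _ ≤ a₃ h * (|x| + |y| + |z|) := by
        nlinarith [abs_nonneg x, abs_nonneg y, abs_nonneg z,
          mul_le_mul_of_nonneg_right s1' (abs_nonneg x),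
          mul_le_mul_of_nonneg_right s2' (abs_nonneg y)]
    _ ≤ a₃ h * (2 * h) := by
        apply mul_le_mul_of_nonneg_left hs (by positivity)
    _ < n := by
        have : ((2 * h * a₃ h : ℕ) : ℤ) < n := by exact_mod_cast hn
        push_cast at this
        linarith

lemma abs_mod_two (x : ℤ) : |x| % 2 = x % 2 := by
  rcases abs_cases x with ⟨h, _⟩ | ⟨h, _⟩ <;> omega

/-- Day's set has three elements and is a `B_h` set over `ℤ`. -/
theorem day {n h : ℕ} (hh : 1 ≤ h) (hn : 2 * h * a₃ h < n) :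
    ({((a₁ h : ℕ) : ZMod n), ((h : ℕ) : ZMod n), ((a₃ h : ℕ) : ZMod n)} : Finset (ZMod n)).card = 3 ∧
      IsBh h ({((a₁ h : ℕ) : ZMod n), ((h : ℕ) : ZMod n), ((a₃ h : ℕ) : ZMod n)} :
        Finset (ZMod n)) := by
  obtain ⟨s1, s2, s3, s4, s5, s6⟩ := sizes hh
  have hh' : (1 : ℤ) ≤ h := by exact_mod_cast hh
  have n1 : ((a₁ h : ℕ) : ZMod n) ≠ ((h : ℕ) : ZMod n) := by
    intro e
    have := key (x := 1) (y := -1) (z := 0) hh hn (by simpa using by omega) (by norm_num)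
      (by simp [e])
    omega
  have n2 : ((a₁ h : ℕ) : ZMod n) ≠ ((a₃ h : ℕ) : ZMod n) := by
    intro e
    have := key (x := 1) (y := 0) (z := -1) hh hn (by simpa using by omega) (by norm_num)
      (by simp [e])
    omega
  have n3 : ((h : ℕ) : ZMod n) ≠ ((a₃ h : ℕ) : ZMod n) := by
    intro e
    have := key (x := 0) (y := 1) (z := -1) hh hn (by simpa using by omega) (by norm_num)
      (by simp [e])
    omega
  refine ⟨Finset.card_eq_three.2 ⟨_, _, _, n1, n2, n3, rfl⟩, ?_⟩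
  intro c d hc hd he
  have e1 : ∀ f : ZMod n → ℤ, ∑ a ∈ ({((a₁ h : ℕ) : ZMod n), ((h : ℕ) : ZMod n),
      ((a₃ h : ℕ) : ZMod n)} : Finset (ZMod n)), f a =
      f (a₁ h : ℕ) + f (h : ℕ) + f (a₃ h : ℕ) := fun f => by
    rw [Finset.sum_insert (by simp [n1, n2]), Finset.sum_pair n3, add_assoc]
  have e2 : ∀ f : ZMod n → ℤ, ∑ a ∈ ({((a₁ h : ℕ) : ZMod n), ((h : ℕ) : ZMod n),
      ((a₃ h : ℕ) : ZMod n)} : Finset (ZMod n)), f a • a =
      f (a₁ h : ℕ) • ((a₁ h : ℕ) : ZMod n) + f (h : ℕ) • ((h : ℕ) : ZMod n) +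
        f (a₃ h : ℕ) • ((a₃ h : ℕ) : ZMod n) := fun f => by
    rw [Finset.sum_insert (by simp [n1, n2]), Finset.sum_pair n3, add_assoc]
  rw [e1 (fun a => |c a|)] at hc
  rw [e1 (fun a => |d a|)] at hd
  rw [e2, e2] at he
  have := key (x := c (a₁ h : ℕ) - d (a₁ h : ℕ)) (y := c (h : ℕ) - d (h : ℕ))
    (z := c (a₃ h : ℕ) - d (a₃ h : ℕ)) hh hn (by
      have t1 := abs_sub (c (a₁ h : ℕ)) (d (a₁ h : ℕ))
      have t2 := abs_sub (c (h : ℕ)) (d (h : ℕ))
      have t3 := abs_sub (c (a₃ h : ℕ)) (d (a₃ h : ℕ))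
      linarith) (by
      have p1 := abs_mod_two (c (a₁ h : ℕ))
      have p2 := abs_mod_two (c (h : ℕ))
      have p3 := abs_mod_two (c (a₃ h : ℕ))
      have p4 := abs_mod_two (d (a₁ h : ℕ))
      have p5 := abs_mod_two (d (h : ℕ))
      have p6 := abs_mod_two (d (a₃ h : ℕ))
      omega) (by
      simp only [sub_smul]
      rw [← sub_eq_zero] at he
      rw [← he]
      abel)
  intro a ha
  simp only [Finset.mem_insert, Finset.mem_singleton] at ha
  rcases ha with rfl | rfl | rfl <;> omega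

lemma le_sigma {n h k : ℕ} [NeZero n] {A : Finset (ZMod n)} (hk : 1 ≤ k) (hA : IsBh h A)
    (hc : A.card = k) : k ≤ sigma n h := by
  refine le_csSup ⟨Fintype.card (ZMod n), ?_⟩ ⟨A, ?_, hA, hc⟩
  · rintro _ ⟨B, -, -, rfl⟩
    exact Finset.card_le_univ B
  · rw [← Finset.card_pos]; omega

/-- **Theorem (Day's conjecture).** For every `h ≥ 1`: (1) `{a₁, h, a₃}` is a three-element `B_h`
set over `ℤ` in `Z_n` for every `n > 2 h a₃`; (2) `g_±(3,h)` is well defined (the set of thresholds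
is nonempty and `g_±(3,h)` is its least element) and
`g_±(3,h) ≤ 2h³ + 2h² + 8h + 1`. -/
theorem result : ∀ h : ℕ, 1 ≤ h →
    (∀ n : ℕ, 2 * h * a₃ h < n →
      ({((a₁ h : ℕ) : ZMod n), ((h : ℕ) : ZMod n), ((a₃ h : ℕ) : ZMod n)} :
        Finset (ZMod n)).card = 3 ∧
      IsBh h ({((a₁ h : ℕ) : ZMod n), ((h : ℕ) : ZMod n), ((a₃ h : ℕ) : ZMod n)} :
        Finset (ZMod n))) ∧
    IsLeast (thresholds 3 h) (gpm 3 h) ∧ gpm 3 h ≤ 2 * h ^ 3 + 2 * h ^ 2 + 8 * h + 1 := by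
  intro h hh
  obtain ⟨s1, s2, s3, s4, s5, s6⟩ := sizes hh
  have hmem : 2 * h ^ 3 + 2 * h ^ 2 + 8 * h + 1 ∈ thresholds 3 h := by
    refine ⟨by omega, fun n hn => ?_⟩
    have : NeZero n := ⟨by omega⟩
    obtain ⟨h1, h2⟩ := day (n := n) hh (by omega)
    exact le_sigma (by norm_num) h2 h1
  refine ⟨fun n hn => day hh hn, ⟨Nat.sInf_mem ⟨_, hmem⟩, fun g hg => Nat.sInf_le hg⟩,
    Nat.sInf_le hmem⟩

end Pool.Agent.Results.MP_66a881_co.DayBound
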